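import Mathlib
import Pool.Agent.ETC.Base

set_option autoImplicit false

/-! Kummer characters. -/

namespace Pool.Agent.ETC

open Pool.Agent.Helper59.EA (IsCoc CobOn Cob)

section

variable {p : ℕ} [hp : Fact p.Prime] {F K : Type} [Field F] [Field K] [Algebra F K] {ζ : F}

lemma zK (hζ : IsPrimitiveRoot ζ p) : IsPrimitiveRoot (algebraMap F K ζ) p :=
  hζ.map_of_injective (algebraMap F K).injective

lemma pow_val_inj (hζ : IsPrimitiveRoot ζ p) {a b : ZMod p}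
    (h : algebraMap F K ζ ^ a.val = algebraMap F K ζ ^ b.val) : a = b := by
  have h1 := (zK (K := K) hζ).pow_inj (ZMod.val_lt a) (ZMod.val_lt b) h
  exact ZMod.val_injective p h1

lemma pow_val_add (hζ : IsPrimitiveRoot ζ p) (a b : ZMod p) :
    algebraMap F K ζ ^ (a + b).val = algebraMap F K ζ ^ a.val * algebraMap F K ζ ^ b.val := by
  rw [ZMod.val_add, ← pow_add]
  exact (pow_eq_pow_mod _ (zK (K := K) hζ).pow_eq_one).symm

lemma root_ne {a : Fˣ} {α : K} (hα : α ^ p = algebraMap F K (a : F)) : α ≠ 0 := by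
  rintro rfl
  rw [zero_pow hp.out.ne_zero] at hα
  exact (map_ne_zero (algebraMap F K)).2 a.ne_zero hα.symm

lemma exists_chi (hζ : IsPrimitiveRoot ζ p) (hK : PCl p F K) (a : Fˣ) :
    ∃ χ : (K ≃ₐ[F] K) → ZMod p, IsChi p ζ a χ := by
  obtain ⟨α, hα⟩ := hK.root (algebraMap F K (a : F))
  have hα0 := root_ne hα
  have hzK := zK (K := K) hζ
  have h1 : ∀ g : K ≃ₐ[F] K, ∃ k : ℕ, k < p ∧ algebraMap F K ζ ^ k = g α / α := by
    intro g
    apply hzK.eq_pow_of_pow_eq_one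
    rw [div_pow, ← map_pow, hα, g.commutes, div_self]
    rw [← hα]
    exact pow_ne_zero _ hα0
  choose k hk hk1 using h1
  refine ⟨fun g => (k g : ZMod p), fun β hβ g => ?_⟩
  have h2 : ∃ j : ℕ, j < p ∧ algebraMap F K ζ ^ j = β / α := by
    apply hzK.eq_pow_of_pow_eq_one
    rw [div_pow, hα, hβ, div_self]
    rw [← hα]
    exact pow_ne_zero _ hα0
  obtain ⟨j, -, hj⟩ := h2
  have e1 : β = algebraMap F K ζ ^ j * α := by rw [hj, div_mul_cancel₀ _ hα0]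
  have e2 : g α = algebraMap F K ζ ^ k g * α := by rw [hk1, div_mul_cancel₀ _ hα0]
  rw [ZMod.val_natCast_of_lt (hk g), e1, map_mul, map_pow, g.commutes, e2]
  ring

lemma IsChi.unique (hζ : IsPrimitiveRoot ζ p) (hK : PCl p F K) {a : Fˣ}
    {χ ψ : (K ≃ₐ[F] K) → ZMod p} (h1 : IsChi p ζ a χ) (h2 : IsChi p ζ a ψ) : χ = ψ := by
  obtain ⟨α, hα⟩ := hK.root (algebraMap F K (a : F))
  have hα0 := root_ne hα
  funext g
  apply pow_val_inj (K := K) hζ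
  have := (h1 α hα g).symm.trans (h2 α hα g)
  exact mul_right_cancel₀ hα0 this

lemma IsChi.mul (hζ : IsPrimitiveRoot ζ p) (hK : PCl p F K) {a b : Fˣ}
    {χ ψ : (K ≃ₐ[F] K) → ZMod p} (h1 : IsChi p ζ a χ) (h2 : IsChi p ζ b ψ) :
    IsChi p ζ (a * b) fun g => χ g + ψ g := by
  intro γ hγ g
  obtain ⟨α, hα⟩ := hK.root (algebraMap F K (a : F))
  have hα0 := root_ne hα
  have hβ : (γ / α) ^ p = algebraMap F K (b : F) := by
    rw [div_pow, hα, hγ, Units.val_mul, map_mul, mul_div_cancel_left₀]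
    rw [← hα]
    exact pow_ne_zero _ hα0
  have h3 := h1 α hα g
  have h4 := h2 _ hβ g
  have e : γ = α * (γ / α) := by rw [mul_div_cancel₀ _ hα0]
  rw [e, map_mul, h3, h4, pow_val_add hζ, mul_div_cancel₀ _ hα0]
  field_simp

/-- characters of elements which differ by a local `p`-th power agree locally -/
lemma IsChi.eqOn (hζ : IsPrimitiveRoot ζ p) (hK : PCl p F K) {a b : Fˣ}
    {χ ψ : (K ≃ₐ[F] K) → ZMod p} (h1 : IsChi p ζ a χ) (h2 : IsChi p ζ b ψ)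
    {Z : Subgroup (K ≃ₐ[F] K)} (h : Fx p Z (a / b)) {σ : K ≃ₐ[F] K} (hσ : σ ∈ Z) : χ σ = ψ σ := by
  obtain ⟨α, hα⟩ := hK.root (algebraMap F K (a : F))
  obtain ⟨β, hβ⟩ := hK.root (algebraMap F K (b : F))
  have hα0 := root_ne hα
  have hβ0 := root_ne hβ
  have h3 : σ (α / β) = α / β := by
    apply h _ _ σ hσ
    rw [div_pow, hα, hβ, Units.val_div_eq_div_val, map_div₀]
  rw [map_div₀, h1 α hα σ, h2 β hβ σ] at h3
  apply pow_val_inj (K := K) hζ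
  have h5 : algebraMap F K ζ ^ (ψ σ).val ≠ 0 :=
    pow_ne_zero _ ((zK (K := K) hζ).ne_zero hp.out.ne_zero)
  rw [div_eq_div_iff (mul_ne_zero h5 hβ0) hβ0] at h3
  have h6 : (algebraMap F K ζ ^ (χ σ).val) * (α * β) = (algebraMap F K ζ ^ (ψ σ).val) * (α * β) := by
    linear_combination h3
  exact mul_right_cancel₀ (mul_ne_zero hα0 hβ0) h6

lemma Cob.add' {c d : (K ≃ₐ[F] K) → (K ≃ₐ[F] K) → ZMod p} (h1 : Cob p c) (h2 : Cob p d) :
    Cob p fun g h => c g h + d g h := by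
  obtain ⟨ρ, hρ, h1⟩ := h1
  obtain ⟨τ, hτ, h2⟩ := h2
  refine ⟨fun g => ρ g + τ g, hρ.add hτ, fun x y => ?_⟩
  dsimp only
  rw [h1, h2]
  ring

lemma Glo.mul_left (hζ : IsPrimitiveRoot ζ p) (hK : PCl p F K) {a a' b : Fˣ}
    (h1 : Glo p K ζ a b) (h2 : Glo p K ζ a' b) : Glo p K ζ (a * a') b := by
  intro χ ψ hχ hψ
  obtain ⟨χ₁, hχ₁⟩ := exists_chi (K := K) hζ hK a
  obtain ⟨χ₂, hχ₂⟩ := exists_chi (K := K) hζ hK a'
  rw [hχ.unique hζ hK (hχ₁.mul hζ hK hχ₂)]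
  convert Cob.add' (h1 _ _ hχ₁ hψ) (h2 _ _ hχ₂ hψ) using 3
  ring

lemma Glo.mul_right (hζ : IsPrimitiveRoot ζ p) (hK : PCl p F K) {a b b' : Fˣ}
    (h1 : Glo p K ζ a b) (h2 : Glo p K ζ a b') : Glo p K ζ a (b * b') := by
  intro χ ψ hχ hψ
  obtain ⟨χ₁, hχ₁⟩ := exists_chi (K := K) hζ hK b
  obtain ⟨χ₂, hχ₂⟩ := exists_chi (K := K) hζ hK b'
  rw [hψ.unique hζ hK (hχ₁.mul hζ hK hχ₂)]
  convert Cob.add' (h1 _ _ hχ hχ₁) (h2 _ _ hχ hχ₂) using 3
  ring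

end

end Pool.Agent.ETC
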