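import Mathlib
import Pool.Agent.ETC.All

set_option autoImplicit false

/-! # The places do not depend on the choice of the root of unity -/

namespace Pool.Agent.ETC

open Pool.Agent.Helper58.EU (Ordg)

section

variable {F : Type} [Field F] {p : ℕ} {ζ ζ' : F}

lemma val_lam_eq (hp : p.Prime) (hζ : IsPrimitiveRoot ζ p) (hζ' : IsPrimitiveRoot ζ' p)
    (R : ValuationSubring F) : R.valuation (1 - ζ) = R.valuation (1 - ζ') := by
  obtain ⟨z, rfl⟩ : ∃ z : Fˣ, (z : F) = ζ := ⟨Units.mk0 _ (hζ.ne_zero hp.ne_zero), Units.val_mk0 _⟩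
  obtain ⟨z', rfl⟩ : ∃ z : Fˣ, (z : F) = ζ' :=
    ⟨Units.mk0 _ (hζ'.ne_zero hp.ne_zero), Units.val_mk0 _⟩
  have hz : IsPrimitiveRoot z p := by rwa [IsPrimitiveRoot.coe_units_iff] at hζ
  have hz' : IsPrimitiveRoot z' p := by rwa [IsPrimitiveRoot.coe_units_iff] at hζ'
  have h1 := Pool.Agent.Helper58.ET.val_p hp hz R
  have h2 := Pool.Agent.Helper58.ET.val_p hp hz' R
  rw [h1] at h2
  have h3 : p - 1 ≠ 0 := by have := hp.one_lt; omega
  exact (pow_left_inj₀ zero_le zero_le h3).1 h2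

lemma Sm_eq (hp : p.Prime) (hζ : IsPrimitiveRoot ζ p) (hζ' : IsPrimitiveRoot ζ' p)
    (R : ValuationSubring F) : Sm p ζ R = Sm p ζ' R := by
  funext x
  unfold Sm
  rw [val_lam_eq hp hζ hζ' R]

lemma TR_eq (hp : p.Prime) (hζ : IsPrimitiveRoot ζ p) (hζ' : IsPrimitiveRoot ζ' p)
    (R : ValuationSubring F) : TR p ζ R = TR p ζ' R := by
  unfold TR
  rw [Sm_eq hp hζ hζ' R]

lemma V1_eq (hp : p.Prime) (hζ : IsPrimitiveRoot ζ p) (hζ' : IsPrimitiveRoot ζ' p)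
    {R : ValuationSubring F} (h : V1 p ζ R) : V1 p ζ' R :=
  ⟨h.pv, h.nu, by rw [← TR_eq hp hζ hζ' R]; exact h.nc⟩

lemma NX_eq (hp : p.Prime) (hζ : IsPrimitiveRoot ζ p) (hζ' : IsPrimitiveRoot ζ' p)
    {R : ValuationSubring F} (h : NX p ζ R) : NX p ζ' R := by
  unfold NX at h ⊢
  rwa [← TR_eq hp hζ hζ' R]

lemma PlN_eq (hp : p.Prime) (hζ : IsPrimitiveRoot ζ p) (hζ' : IsPrimitiveRoot ζ' p)
    {R : ValuationSubring F} (h : PlN p ζ R) : PlN p ζ' R :=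
  ⟨h.1.elim (fun h => Or.inl (V1_eq hp hζ hζ' h)) Or.inr, NX_eq hp hζ hζ' h.2⟩

end

end Pool.Agent.ETC
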