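import Mathlib
import Pool.Agent.Helper19.ETC.Zeta
import Pool.Agent.Helper59.EA.Props
import Pool.Graph.R_seed8.Y620.ET.Extv

set_option autoImplicit false

/-! # The covering family -/

namespace Pool.Agent.ETC

open Pool.Agent.Helper58.EU (Ordg)

/-- V2NC (helper5): `F*/T(R)` is not cyclic for dyadic places -/
def S_V2NC : Prop := ∀ (F : Type) [Field F] (ζ : F), IsPrimitiveRoot ζ 2 →
  ∀ R : ValuationSubring F, V2 2 R → ∀ g : Fˣ, ∃ x : Fˣ, ∀ n : ℕ, x / g ^ n ∉ TR 2 ζ R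

section

variable {F : Type} [Field F] {p : ℕ} {ζ : F}

lemma nc_of_pl (hnc : S_V2NC) (hζ : IsPrimitiveRoot ζ 2) {R : ValuationSubring F}
    (h : Pl 2 ζ R) : ∀ g : Fˣ, ∃ x : Fˣ, ∀ n : ℕ, x / g ^ n ∉ TR 2 ζ R :=
  h.elim (fun h => h.nc) (fun h => hnc F ζ hζ R h)

/-- the group of a place is not everything -/
lemma ne_top_of_pl (hp : p.Prime) (hζ : IsPrimitiveRoot ζ p) {R : ValuationSubring F}
    (h : Pl p ζ R) : ∃ c : Fˣ, c ∉ TR p ζ R := by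
  obtain ⟨c, hc⟩ := Pool.Agent.Helper59.EA.nu_of_pl hp h
  refine ⟨c, fun hcT => ?_⟩
  rw [mem_TR hp.ne_zero hζ.pow_eq_one (hζ.ne_one hp.one_lt)] at hcT
  obtain ⟨f, x, hx, hcx⟩ := hcT
  apply hc f⁻¹
  have hf : (f : F) ≠ 0 := f.ne_zero
  rw [Units.val_mul, Units.val_pow_eq_pow_val, Units.val_inv_eq_inv_val, hcx]
  have e : (f : F) ^ p * (1 + x) * (f : F)⁻¹ ^ p = 1 + x := by
    rw [inv_pow]
    field_simp
  rw [e]
  exact val_one_add (hx.lt_one hp.ne_zero hζ.pow_eq_one)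

/-- orderings are maximal -/
lemma ordg_eq {P Q : Subgroup Fˣ} (hP : Ordg P) (hQ : Ordg Q) (h : P ≤ Q) : P = Q := by
  apply le_antisymm h
  intro x hx
  rcases hP.tot x with h1 | h1
  · exact h1
  · exfalso
    apply hQ.neg
    have h2 := Q.mul_mem (h h1) (Q.inv_mem hx)
    rwa [neg_mul, mul_inv_cancel] at h2

/-- groups of order at most four -/
lemma four {T T' P : Subgroup Fˣ} (hT : ∀ c : Fˣ, c ^ 2 ∈ T) (hTT : T ≤ T') (hP : Ordg P)
    {g : Fˣ} (hg : ∀ x ∈ P, ∃ n : ℕ, x / g ^ n ∈ T) :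
    T = T' ∨ ∃ h : Fˣ, ∀ x : Fˣ, ∃ n : ℕ, x / h ^ n ∈ T' := by
  by_cases hle : T' ≤ T
  · exact Or.inl (le_antisymm hTT hle)
  right
  obtain ⟨t, htT', htT⟩ := SetLike.not_le_iff_exists.1 hle
  -- parity
  have hev : ∀ (a : Fˣ) (n : ℕ), a ^ (2 * n) ∈ T := fun a n => by
    rw [mul_comm, pow_mul]
    exact hT _
  -- representatives
  have hrep : ∀ x : Fˣ, ∃ s ∈ T, x = s ∨ x = -s ∨ x = g * s ∨ x = -(g * s) := by
    have h1 : ∀ x ∈ P, ∃ s ∈ T, x = s ∨ x = g * s := by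
      intro x hx
      obtain ⟨n, hn⟩ := hg x hx
      rcases Nat.even_or_odd' n with ⟨k, rfl | rfl⟩
      · refine ⟨x, ?_, Or.inl rfl⟩
        have h2 := T.mul_mem hn (hev g k)
        rwa [div_mul_cancel] at h2
      · refine ⟨x / g, ?_, Or.inr (mul_div_cancel _ _).symm⟩
        have h2 := T.mul_mem hn (hev g k)
        rw [pow_succ, ← div_div] at h2
        have e : x / g ^ (2 * k) / g * g ^ (2 * k) = x / g := by
          rw [div_right_comm, div_mul_cancel]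
        rwa [e] at h2
    intro x
    rcases hP.tot x with h2 | h2
    · obtain ⟨s, hs, h3 | h3⟩ := h1 x h2
      · exact ⟨s, hs, Or.inl h3⟩
      · exact ⟨s, hs, Or.inr (Or.inr (Or.inl h3))⟩
    · obtain ⟨s, hs, h3 | h3⟩ := h1 (-x) h2
      · exact ⟨s, hs, Or.inr (Or.inl (by rw [← h3, neg_neg]))⟩
      · exact ⟨s, hs, Or.inr (Or.inr (Or.inr (by rw [← h3, neg_neg])))⟩
  obtain ⟨s₀, hs₀, h0⟩ := hrep t
  have hT' : ∀ c : Fˣ, c ^ 2 ∈ T' := fun c => hTT (hT c)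
  rcases h0 with h0 | h0 | h0 | h0
  · exact absurd (h0 ▸ hs₀) htT
  · -- `-1 ∈ T'`
    have hm : (-1 : Fˣ) ∈ T' := by
      have h1 := T'.mul_mem htT' (T'.inv_mem (hTT hs₀))
      rwa [h0, neg_mul, mul_inv_cancel] at h1
    refine ⟨g, fun x => ?_⟩
    obtain ⟨s, hs, h | h | h | h⟩ := hrep x
    · exact ⟨0, by rw [pow_zero, div_one, h]; exact hTT hs⟩
    · refine ⟨0, ?_⟩
      rw [pow_zero, div_one, h]
      have := T'.mul_mem hm (hTT hs)
      rwa [neg_one_mul] at this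
    · refine ⟨1, ?_⟩
      rw [pow_one, h, mul_div_cancel_left]
      exact hTT hs
    · refine ⟨1, ?_⟩
      rw [pow_one, h, neg_div, mul_div_cancel_left]
      have := T'.mul_mem hm (hTT hs)
      rwa [neg_one_mul] at this
  · -- `g ∈ T'`
    have hm : g ∈ T' := by
      have h1 := T'.mul_mem htT' (T'.inv_mem (hTT hs₀))
      rwa [h0, mul_assoc, mul_inv_cancel, mul_one] at h1
    refine ⟨-1, fun x => ?_⟩
    obtain ⟨s, hs, h | h | h | h⟩ := hrep x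
    · exact ⟨0, by rw [pow_zero, div_one, h]; exact hTT hs⟩
    · refine ⟨1, ?_⟩
      rw [pow_one, h, div_neg, neg_div, neg_neg, div_one]
      exact hTT hs
    · refine ⟨0, ?_⟩
      rw [pow_zero, div_one, h]
      exact T'.mul_mem hm (hTT hs)
    · refine ⟨1, ?_⟩
      rw [pow_one, h, div_neg, neg_div, neg_neg, div_one]
      exact T'.mul_mem hm (hTT hs)
  · -- `-g ∈ T'`
    have hm : -g ∈ T' := by
      have h1 := T'.mul_mem htT' (T'.inv_mem (hTT hs₀))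
      rwa [h0, neg_mul, mul_assoc, mul_inv_cancel, mul_one] at h1
    have hk : ∀ s ∈ T, -s / g ∈ T' := by
      intro s hs
      have h1 := T'.mul_mem hm (T'.mul_mem (hTT hs) (T'.inv_mem (hT' g)))
      have e : -g * (s * (g ^ 2)⁻¹) = -s / g := by
        rw [neg_mul, neg_div, neg_inj, div_eq_mul_inv, pow_two, mul_inv]
        rw [mul_left_comm g s, mul_inv_cancel_left]
      rwa [e] at h1
    refine ⟨g, fun x => ?_⟩
    obtain ⟨s, hs, h | h | h | h⟩ := hrep x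
    · exact ⟨0, by rw [pow_zero, div_one, h]; exact hTT hs⟩
    · refine ⟨1, ?_⟩
      rw [pow_one, h]
      exact hk s hs
    · refine ⟨1, ?_⟩
      rw [pow_one, h, mul_div_cancel_left]
      exact hTT hs
    · refine ⟨2, ?_⟩
      have e : x / g ^ 2 = -s / g := by
        rw [h, pow_two, neg_div, neg_div, neg_inj, mul_div_mul_left_eq_div]
      rw [e]
      exact hk s hs

end

section

variable {F K : Type} [Field F] [Field K] [Algebra F K] {p : ℕ} {ζ : F}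

lemma dz_dec (hp : p.Prime) (hζ : IsPrimitiveRoot ζ p) {W : ValuationSubring K}
    (h : PlN p ζ (W.comap (algebraMap F K))) : Dz p (Dec F W) :=
  Or.inl ⟨W, rfl, fun _ hζ' => PlN_eq hp hζ hζ' h⟩

lemma goodZ_ext {Z : Subgroup (K ≃ₐ[F] K)} {T P : Subgroup Fˣ} (h : GoodZ p ζ Z P)
    (hT : ∀ t : Fˣ, t ∈ T ↔ Fx p Z t) : P = T := by
  ext t
  rw [hT, h.mem]

/-- local groups for a piece -/
lemma exists_Z (hFP : S_V3) (hNL : S_NLIFT) (hIO : S_INVO) (hEX : S_EXIST) [Fact p.Prime]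
    (hζ : IsPrimitiveRoot ζ p) (hP : PCl p F K) {T : Subgroup Fˣ} (hT : Piece p ζ T) :
    ∃ Z : Subgroup (K ≃ₐ[F] K), Dz p Z ∧ GoodZ p ζ Z T ∧ GenZ p Z := by
  have hp : p.Prime := Fact.out
  rcases hT with ⟨R, hR, rfl⟩ | ⟨rfl, hO⟩
  · obtain ⟨W, rfl⟩ := Pool.Agent.Y620.ET.t_EXTV F K R
    have htop := hR.1.top hp hζ
    exact ⟨Dec F W, dz_dec hp hζ hR, hNL p F K ζ hζ hP W htop, (hFP p F K ζ hζ hP W htop).2⟩
  · obtain ⟨τ, hτ, hτT⟩ := hEX F K ζ hζ hP T hO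
    obtain ⟨P, hPO, hG, hgen⟩ := hIO F K ζ hζ hP τ hτ
    obtain rfl := goodZ_ext hG hτT
    exact ⟨Subgroup.zpowers τ, Or.inr ⟨rfl, τ, hτ, rfl⟩, hG, hgen⟩

/-- local groups for a piece, with conjugacy -/
lemma exists_Z_cov (hFP : S_V3) (hNL : S_NLIFT) (hIO : S_INVO) (hEX : S_EXIST) (hCI : S_CONJINV)
    (hCO : S_COMPO) (hCV : S_COMPV) (hnc : S_V2NC) [Fact p.Prime]
    (hζ : IsPrimitiveRoot ζ p) (hP : PCl p F K)
    (hfin : (powMonoidHom p : Fˣ →* Fˣ).range.index ≠ 0) {T : Subgroup Fˣ} (hT : Piece p ζ T)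
    (hu : (∃ R : ValuationSubring F, PlN p ζ R ∧ T = TR p ζ R) →
      ∀ O : ValuationSubring F, Pl p ζ O → TR p ζ O ≤ T → TR p ζ O = T) :
    ∃ Z : Subgroup (K ≃ₐ[F] K), Dz p Z ∧ GoodZ p ζ Z T ∧ GenZ p Z ∧
      (∀ V : ValuationSubring K, PlN p ζ (V.comap (algebraMap F K)) →
        T ≤ TR p ζ (V.comap (algebraMap F K)) →
          ∃ g : K ≃ₐ[F] K, ∀ σ ∈ Dec F V, g⁻¹ * σ * g ∈ Z) ∧
      (p = 2 → ∀ τ : K ≃ₐ[F] K, Inv τ → (∀ t ∈ T, Fx 2 (Subgroup.zpowers τ) t) →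
        ∃ g : K ≃ₐ[F] K, g⁻¹ * τ * g ∈ Z) := by
  have hp : p.Prime := Fact.out
  rcases hT with hR | ⟨rfl, hO⟩
  · obtain ⟨W, hW, rfl, hcov⟩ := hCV p F K ζ hζ hP hfin T hR (hu hR)
    have htop := hW.1.top hp hζ
    refine ⟨Dec F W, dz_dec hp hζ hW, hNL p F K ζ hζ hP W htop, (hFP p F K ζ hζ hP W htop).2,
      hcov, ?_⟩
    rintro rfl τ hτ h
    exact hCO F K ζ hζ hP W hW τ hτ h
  · obtain ⟨τ, hτ, hτT⟩ := hEX F K ζ hζ hP T hO
    obtain ⟨P, hPO, hG, hgen⟩ := hIO F K ζ hζ hP τ hτ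
    obtain rfl := goodZ_ext hG hτT
    refine ⟨Subgroup.zpowers τ, Or.inr ⟨rfl, τ, hτ, rfl⟩, hG, hgen, ?_, ?_⟩
    · intro V hV hle
      exfalso
      obtain ⟨x, hx⟩ := nc_of_pl hnc hζ hV.1 (-1)
      rcases hPO.tot x with h | h
      · apply hx 0
        rw [pow_zero, div_one]
        exact hle h
      · apply hx 1
        rw [pow_one, div_neg, div_one]
        exact hle h
    · intro _ τ' hτ' h
      obtain ⟨g, hg⟩ := hCI F K ζ hζ hP τ τ' hτ hτ' (fun t ht => h t ((hτT t).2 ht))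
      exact ⟨g, by rw [hg]; exact Subgroup.mem_zpowers τ⟩

end

/-- in an orthogonal family no component contains another one -/
lemma Orth.eq_of_le {F : Type} [Field F] {p : ℕ} {I : Type} {T : I → Subgroup Fˣ}
    (h : Orth p T) {i j : I} (hi : ∃ c : Fˣ, c ∉ T i) (hle : T j ≤ T i) : j = i := by
  classical
  by_contra hne
  obtain ⟨c, hc⟩ := hi
  obtain ⟨y, hy⟩ := h.onto (Function.update (fun _ => 1) i c)
  have h1 := hy i
  have h2 := hy j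
  rw [Function.update_self] at h1
  rw [Function.update_of_ne hne, div_one] at h2
  apply hc
  have h3 := (T i).mul_mem (hle h2) ((T i).inv_mem h1)
  rwa [inv_div, mul_div_cancel] at h3

/-- the pieces of valuation type are unique -/
lemma hu_of (hnc : S_V2NC) (hSI : S_SINGLEA) {p : ℕ} [Fact p.Prime] {F K : Type} [Field F]
    [Field K] [Algebra F K] {ζ : F} (hζ : IsPrimitiveRoot ζ p) (hP : PCl p F K) {I : Type}
    [Finite I] {T : I → Subgroup Fˣ} (hO : Orth p T) (hG : Glue p T)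
    (hT : ∀ i, Piece p ζ (T i)) {i : I}
    (hR : ∃ R : ValuationSubring F, PlN p ζ R ∧ T i = TR p ζ R) (O : ValuationSubring F)
    (hPl : Pl p ζ O) (hle : TR p ζ O ≤ T i) : TR p ζ O = T i := by
  have hp : p.Prime := Fact.out
  obtain ⟨R, hR, hTR⟩ := hR
  by_cases hNX : NX p ζ O
  · obtain ⟨j, hj⟩ := (hSI p F K ζ hζ hP I T hO hG hT).1 O ⟨hPl, hNX⟩
    have h1 : j = i := hO.eq_of_le (by rw [hTR]; exact ne_top_of_pl hp hζ hR.1) (hj.trans hle)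
    rw [h1] at hj
    exact le_antisymm hle hj
  · have hp2 : p = 2 := by
      rcases hp.eq_two_or_odd' with h | h
      · exact h
      · exact absurd (NX.of_odd h ζ O) hNX
    subst hp2
    unfold NX at hNX
    push Not at hNX
    obtain ⟨P, hPO, -, g, hg⟩ := hNX
    rcases four (fun c => pow_mem_TR 2 ζ O c) hle hPO hg with h | ⟨h, hh⟩
    · exact h
    · exfalso
      obtain ⟨x, hx⟩ := nc_of_pl hnc hζ hR.1 h
      obtain ⟨n, hn⟩ := hh x
      rw [hTR] at hn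
      exact hx n hn

theorem t_FAMZ (hFA : S_FAMA) (hV3 : S_V3) (hNL : S_NLIFT) (hIO : S_INVO) (hEX : S_EXIST) :
    S_FAMZ := by
  intro p _ F K _ _ _ ζ hζ hP hfin
  obtain ⟨I, hI, T, hO, hG, hT⟩ := hFA p F ζ hζ hfin
  choose Z h1 h2 h3 using fun i => exists_Z hV3 hNL hIO hEX hζ hP (hT i)
  exact ⟨I, hI, T, Z, hO, h1, h2, h3⟩

theorem t_COVER (hFA : S_FAMA) (hSI : S_SINGLEA) (hV3 : S_V3) (hNL : S_NLIFT) (hIO : S_INVO)
    (hEX : S_EXIST) (hCI : S_CONJINV) (hCO : S_COMPO) (hCV : S_COMPV) (hnc : S_V2NC) :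
    S_COVER := by
  intro p _ F K _ _ _ ζ hζ hP hfin
  obtain ⟨I, hI, T, hO, hG, hT⟩ := hFA p F ζ hζ hfin
  choose Z h1 h2 h3 h4 h5 using fun i => exists_Z_cov hV3 hNL hIO hEX hCI hCO hCV hnc hζ hP hfin
    (hT i) (fun hR O hPl hle => hu_of hnc hSI hζ hP hO hG hT hR O hPl hle)
  refine ⟨I, hI, T, Z, ⟨hO, h1, h2, h3⟩, ?_⟩
  obtain ⟨s1, s2⟩ := hSI p F K ζ hζ hP I T hO hG hT
  rintro Z' (⟨V, rfl, hV⟩ | ⟨rfl, τ, hτ, rfl⟩)
  · obtain ⟨i, hi⟩ := s1 _ (hV ζ hζ)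
    obtain ⟨g, hg⟩ := h4 i V (hV ζ hζ) hi
    exact ⟨i, g, hg⟩
  · obtain ⟨P, hPO, hGP, -⟩ := hIO F K ζ hζ hP τ hτ
    obtain ⟨i, hi⟩ := s2 rfl P hPO
    obtain ⟨g, hg⟩ := h5 i rfl τ hτ (fun t ht => (hGP.mem t).1 (hi ht))
    refine ⟨i, g, ?_⟩
    rintro σ ⟨n, rfl⟩
    have h6 := (Z i).zpow_mem hg n
    have e : g⁻¹ * τ ^ n * g = (g⁻¹ * τ * g) ^ n := by
      have := conj_zpow (i := n) (a := g⁻¹) (b := τ)
      rw [inv_inv] at this
      exact this.symm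
    change g⁻¹ * τ ^ n * g ∈ Z i
    rw [e]
    exact h6

end Pool.Agent.ETC
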