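import Mathlib
import Pool.Agent.Helper19.ETC.Chi

set_option autoImplicit false

/-! The local-global principle for symbols. -/

namespace Pool.Agent.ETC

open Pool.Agent.Helper59.EA (IsCoc CobOn Cob)
open Pool.Agent.Y920.EP (nmG)

section

variable {F : Type} [Field F] {I : Type} [Finite I] {T : I → Subgroup Fˣ}

/-- components -/
lemma exists_cpt {p : ℕ} (hO : Orth p T) (a : Fˣ) (i : I) : ∃ y : Fˣ, Cpt T i a y := by
  classical
  obtain ⟨y, hy⟩ := hO.onto (Function.update (fun _ => 1) i a)
  refine ⟨y, ?_, ?_⟩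
  · have := hy i
    rw [Function.update_self] at this
    have h := inv_mem this
    rwa [inv_div] at h
  · intro j hj
    have := hy j
    rwa [Function.update_of_ne hj, div_one] at this

/-- the product of the components -/
lemma cpt_prod [Fintype I] {a : Fˣ} {y : I → Fˣ} (hy : ∀ i, Cpt T i a (y i)) (j : I) :
    a / ∏ i, y i ∈ T j := by
  classical
  rw [← Finset.mul_prod_erase Finset.univ y (Finset.mem_univ j), ← div_div]
  refine div_mem (hy j).1 (Subgroup.prod_mem _ fun i hi => ?_)
  exact (hy i).2 j (Finset.ne_of_mem_erase hi).symm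

end

theorem t_XF (hN : S_NORMCUP) : S_XF := by
  classical
  intro p hp F K _ _ _ ζ hζ hK I _ T Z hO hG a b hloc
  have _ := Fintype.ofFinite I
  have nc := fun a b => hN p F K ζ hζ hK a b
  choose y hy using fun i => exists_cpt hO a i
  choose z hz using fun i => exists_cpt hO b i
  -- the local components
  have h1 : ∀ i, Nm p (y i) (z i) := by
    intro i
    have hl : LocZ p ζ (Z i) (y i) (z i) := by
      intro χ' ψ' hχ' hψ'
      obtain ⟨χ, hχ⟩ := exists_chi (K := K) hζ hK a
      obtain ⟨ψ, hψ⟩ := exists_chi (K := K) hζ hK b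
      obtain ⟨ρ, hρ, h2⟩ := hloc i χ ψ hχ hψ
      refine ⟨ρ, hρ, fun g h => ?_⟩
      rw [← h2 g h]
      dsimp only
      rw [hχ.eqOn hζ hK hχ' (((hG i).mem _).1 (hy i).1) g.2,
        hψ.eqOn hζ hK hψ' (((hG i).mem _).1 (hz i).1) h.2]
    rcases (hG i).lift _ _ hl with h2 | h2 | ⟨t, ht, h2⟩
    · refine (hO.rad _ (fun j => ?_) _).1
      by_cases hj : j = i
      · rw [hj]; exact h2
      · exact (hy i).2 j hj
    · refine (hO.rad _ (fun j => ?_) _).2
      by_cases hj : j = i
      · rw [hj]; exact h2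
      · exact (hz i).2 j hj
    · have h3 := (hO.orth i (y i) t (hy i).2 ht).1
      have h4 : z i * t / t ∈ nmG p (y i) := div_mem h2 h3
      rwa [mul_div_cancel_right] at h4
  -- all pairs of components
  have h2 : ∀ i j, Glo p K ζ (y i) (z j) := by
    intro i j
    rw [← nc]
    by_cases hij : j = i
    · rw [hij]; exact h1 i
    · exact (hO.orth i (y i) (z j) (hy i).2 ((hz j).2 i (Ne.symm hij))).1
  have one_right : ∀ a : Fˣ, Glo p K ζ a 1 := fun a => by
    rw [← nc]
    exact one_mem (nmG p a)
  have h3 : ∀ i, Glo p K ζ (y i) b := by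
    intro i
    have h4 : Glo p K ζ (y i) (∏ j, z j) := by
      refine Finset.prod_induction z (fun x => Glo p K ζ (y i) x)
        (fun _ _ h h' => h.mul_right hζ hK h') (one_right _) fun j _ => h2 i j
    have h5 : Glo p K ζ (y i) (b / ∏ j, z j) := by
      rw [← nc]
      exact (hO.rad _ (fun j => cpt_prod hz j) _).2
    have h6 := h4.mul_right hζ hK h5
    rwa [mul_div_cancel] at h6
  have one_left : Glo p K ζ 1 b := by
    rw [← nc]
    exact (hO.rad 1 (fun j => one_mem _) b).1
  rw [nc]
  have h4 : Glo p K ζ (∏ i, y i) b := by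
    refine Finset.prod_induction y (fun x => Glo p K ζ x b)
      (fun _ _ h h' => h.mul_left hζ hK h') one_left fun i _ => h3 i
  have h5 : Glo p K ζ (a / ∏ i, y i) b := by
    rw [← nc]
    exact (hO.rad _ (fun j => cpt_prod hy j) _).1
  have h6 := h4.mul_left hζ hK h5
  rwa [mul_div_cancel] at h6

end Pool.Agent.ETC
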