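import Mathlib
import Pool.Agent.Helper19.ETC.Cover
import Pool.Agent.Helper19.ETC.XF
import Pool.Agent.Helper14.ER.Compo
import Pool.Agent.Helper26.ET.Fin
import Pool.Agent.Helper39.FAM.Fama
import Pool.Agent.Helper40.ET.Comp
import Pool.Agent.Helper66.ETC.Nlift
import Pool.Agent.Helper66.ETC.Up
import Pool.Agent.Helper83.ET.Final
import Pool.Agent.Helper95.EC.K2M
import Pool.Agent.Helper99.ER.Glue
import Pool.Agent.Helper99.ER.Invo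
import Pool.Agent.Helper24.ETC.SingleA
import Pool.Agent.Helper40.ET.Star
import Pool.Agent.Helper95.EC.Up

set_option autoImplicit false

/-! # The elementary type conjecture from the remaining modules -/

namespace Pool.Agent.Helper19.ETC

open Pool.Agent.ETC

theorem pre (hSI : S_SINGLEA) (hST : S_STARA) (hUP : S_PCLUP) (hnc : S_V2NC) :
  ∀ (p : ℕ) [Fact p.Prime] (F : Type) [Field F],
    (∃ ζ : F, IsPrimitiveRoot ζ p) →
    ∀ K : IntermediateField F (AlgebraicClosure F),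
      K = sSup {L : IntermediateField F (AlgebraicClosure F) |
        FiniteDimensional F L ∧ IsGalois F L ∧ ∃ k : ℕ, Module.finrank F L = p ^ k} →
      (∃ S : Finset (↥K ≃ₐ[F] ↥K),
        Dense ((Subgroup.closure (S : Set (↥K ≃ₐ[F] ↥K)) : Set (↥K ≃ₐ[F] ↥K)))) →
      ∃ (n : ℕ) (H : Fin n → Subgroup (↥K ≃ₐ[F] ↥K)),
        (∀ i, IsClosed (H i : Set (↥K ≃ₐ[F] ↥K))) ∧
        (∀ (P : Type) [Group P] [Finite P], (∃ k : ℕ, Nat.card P = p ^ k) →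
          ∀ φ : (i : Fin n) → (H i →* P), (∀ i, IsOpen ((φ i).ker : Set (H i))) →
            ∃! ψ : (↥K ≃ₐ[F] ↥K) →* P,
              IsOpen (ψ.ker : Set (↥K ≃ₐ[F] ↥K)) ∧
              ∀ i, ∀ x : H i, ψ (x : ↥K ≃ₐ[F] ↥K) = φ i x) ∧
        (∀ i,
          Nonempty (H i ≃ₜ* Multiplicative (PadicInt p)) ∨
          (∃ (Γ : Type) (_ : LinearOrderedCommGroupWithZero Γ) (w : Valuation (↥K) Γ),
            (∀ σ : ↥K ≃ₐ[F] ↥K, σ ∈ H i ↔ ∀ x : ↥K, (w (σ x) ≤ 1 ↔ w x ≤ 1)) ∧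
            ∃ σ ∈ H i, σ ≠ 1 ∧ ∀ x : ↥K, w x ≤ 1 → w (σ x - x) < 1) ∨
          (p = 2 ∧ Nat.card (H i) = 2)) :=
  Pool.Agent.Helper83.ET.final hST Pool.Agent.Helper26.ET.t_FIN Pool.Agent.Helper26.ET.t_FG hUP
    (t_COVER Pool.Agent.Helper39.FAM.t_FAMA hSI t_V3 (t_NLIFT Pool.Agent.Helper95.EC.t_NORMCUP hUP)
      Pool.Agent.Helper99.ER.t_INVO Pool.Agent.Helper99.ER.t_EXIST
      Pool.Agent.Helper99.ER.t_CONJINV Pool.Agent.Helper14.ER.t_COMPO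
      Pool.Agent.Helper40.ET.t_COMPV hnc)
    (t_XF Pool.Agent.Helper95.EC.t_NORMCUP) Pool.Agent.Helper95.EC.t_NORMCUP

theorem pre2 (hNX : S_STARNX) (hnc : S_V2NC) :
  ∀ (p : ℕ) [Fact p.Prime] (F : Type) [Field F],
    (∃ ζ : F, IsPrimitiveRoot ζ p) →
    ∀ K : IntermediateField F (AlgebraicClosure F),
      K = sSup {L : IntermediateField F (AlgebraicClosure F) |
        FiniteDimensional F L ∧ IsGalois F L ∧ ∃ k : ℕ, Module.finrank F L = p ^ k} →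
      (∃ S : Finset (↥K ≃ₐ[F] ↥K),
        Dense ((Subgroup.closure (S : Set (↥K ≃ₐ[F] ↥K)) : Set (↥K ≃ₐ[F] ↥K)))) →
      ∃ (n : ℕ) (H : Fin n → Subgroup (↥K ≃ₐ[F] ↥K)),
        (∀ i, IsClosed (H i : Set (↥K ≃ₐ[F] ↥K))) ∧
        (∀ (P : Type) [Group P] [Finite P], (∃ k : ℕ, Nat.card P = p ^ k) →
          ∀ φ : (i : Fin n) → (H i →* P), (∀ i, IsOpen ((φ i).ker : Set (H i))) →
            ∃! ψ : (↥K ≃ₐ[F] ↥K) →* P,
              IsOpen (ψ.ker : Set (↥K ≃ₐ[F] ↥K)) ∧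
              ∀ i, ∀ x : H i, ψ (x : ↥K ≃ₐ[F] ↥K) = φ i x) ∧
        (∀ i,
          Nonempty (H i ≃ₜ* Multiplicative (PadicInt p)) ∨
          (∃ (Γ : Type) (_ : LinearOrderedCommGroupWithZero Γ) (w : Valuation (↥K) Γ),
            (∀ σ : ↥K ≃ₐ[F] ↥K, σ ∈ H i ↔ ∀ x : ↥K, (w (σ x) ≤ 1 ↔ w x ≤ 1)) ∧
            ∃ σ ∈ H i, σ ≠ 1 ∧ ∀ x : ↥K, w x ≤ 1 → w (σ x - x) < 1) ∨
          (p = 2 ∧ Nat.card (H i) = 2)) :=
  pre (t_SINGLEA Pool.Agent.Helper95.EC.t_PCLUP)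
    (Pool.Agent.Helper40.ET.t_STARA hNX Pool.Agent.Helper14.ER.t_V2O)
    Pool.Agent.Helper95.EC.t_PCLUP hnc

end Pool.Agent.Helper19.ETC
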