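import Mathlib
import Pool.Agent.Helper19.ETC.Cover

set_option autoImplicit false

/-! # The square classes at a dyadic place are not cyclic -/

namespace Pool.Agent.ETC

theorem t_V2NC : S_V2NC := by
  intro F _ ζ hζ R hR g
  by_contra hcon
  push Not at hcon
  have hp : Nat.Prime 2 := Nat.prime_two
  have hζ1 : ζ = -1 := hζ.eq_neg_one_of_two_right
  have h20 : (2 : F) ≠ 0 := by
    intro h
    apply hζ.ne_one (by norm_num : 1 < 2)
    rw [hζ1]
    linear_combination -h
  have hlam : (1 : F) - ζ = 2 := by rw [hζ1]; norm_num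
  have hT : ∀ c : Fˣ, c ^ 2 ∈ TR 2 ζ R := pow_mem_TR 2 ζ R
  have hmem := fun t : Fˣ => mem_TR (p := 2) (R := R) (t := t) two_ne_zero hζ.pow_eq_one
    (hζ.ne_one (by norm_num : 1 < 2))
  have hv2 : R.valuation (2 : F) < 1 := by
    have := hR.pv
    exact_mod_cast this
  obtain ⟨c, hc⟩ := Pool.Agent.Helper59.EA.nu_of_pl (ζ := ζ) hp (Or.inr hR)
  -- two classes only
  have hdich : ∀ x : Fˣ, x ∈ TR 2 ζ R ∨ x / g ∈ TR 2 ζ R := by
    intro x
    obtain ⟨n, hn⟩ := hcon x
    have hev : ∀ k : ℕ, g ^ (2 * k) ∈ TR 2 ζ R := fun k => by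
      rw [mul_comm, pow_mul]
      exact hT _
    rcases Nat.even_or_odd' n with ⟨k, rfl | rfl⟩
    · left
      have h2 := (TR 2 ζ R).mul_mem hn (hev k)
      rwa [div_mul_cancel] at h2
    · right
      have h2 := (TR 2 ζ R).mul_mem hn (hev k)
      rw [pow_succ, ← div_div] at h2
      have e : x / g ^ (2 * k) / g * g ^ (2 * k) = x / g := by
        rw [div_right_comm, div_mul_cancel]
      rwa [e] at h2
  -- an element of value one
  have hunit : ∀ x : Fˣ, R.valuation (x : F) = 1 → c / x ∉ TR 2 ζ R := by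
    intro x hx h
    obtain ⟨f, m, hm, hcx⟩ := (hmem _).1 h
    apply hc f⁻¹
    have hf : (f : F) ≠ 0 := f.ne_zero
    have hx0 : (x : F) ≠ 0 := x.ne_zero
    rw [Units.val_div_eq_div_val, div_eq_iff hx0] at hcx
    rw [Units.val_mul, Units.val_pow_eq_pow_val, Units.val_inv_eq_inv_val, hcx]
    have e : (f : F) ^ 2 * (1 + m) * (x : F) * (f : F)⁻¹ ^ 2 = (1 + m) * x := by
      field_simp
    rw [e, map_mul, hx, mul_one]
    exact val_one_add (hm.lt_one two_ne_zero hζ.pow_eq_one)
  have hcT : c ∉ TR 2 ζ R := by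
    have := hunit 1 (by rw [Units.val_one, map_one])
    rwa [div_one] at this
  have hcg : c / g ∈ TR 2 ζ R := (hdich c).resolve_left hcT
  have hall : ∀ x : Fˣ, R.valuation (x : F) = 1 → x ∈ TR 2 ζ R := by
    intro x hx
    rcases hdich x with h | h
    · exact h
    · exfalso
      apply hunit x hx
      have h2 := (TR 2 ζ R).mul_mem hcg ((TR 2 ζ R).inv_mem h)
      rwa [inv_div, div_mul_div_cancel] at h2
  -- surjectivity of `b ↦ b + b ^ 2`
  have hsurj : ∀ a : R, ∃ b : R, R.valuation ((a : F) - (b + b ^ 2)) < 1 := by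
    intro a
    have ha1 : R.valuation (a : F) ≤ 1 := (R.valuation_le_one_iff _).2 a.2
    have h4 : R.valuation (4 * (a : F)) < 1 := by
      have e : (4 : F) * a = 2 * (2 * a) := by ring
      rw [e, map_mul, map_mul]
      calc R.valuation (2 : F) * (R.valuation 2 * R.valuation (a : F))
          ≤ R.valuation (2 : F) * 1 := by
            gcongr
            exact mul_le_one' hv2.le ha1
        _ < 1 := by rwa [mul_one]
    have hu1 : R.valuation (1 + 4 * (a : F)) = 1 := val_one_add h4
    have hu0 : 1 + 4 * (a : F) ≠ 0 := by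
      intro h
      rw [h, map_zero] at hu1
      exact zero_ne_one hu1
    obtain ⟨f, m, hm, hfm⟩ := (hmem _).1 (hall (Units.mk0 _ hu0) hu1)
    rw [Units.val_mk0] at hfm
    have hm1 : R.valuation m < 1 := hm.lt_one two_ne_zero hζ.pow_eq_one
    have hm2 : R.valuation m < R.valuation (2 : F) ^ 2 := by
      have := hm
      unfold Sm at this
      rwa [hlam] at this
    have hf1 : R.valuation (f : F) ^ 2 = 1 := by
      have h1 := congrArg R.valuation hfm
      rw [hu1, map_mul, map_pow, val_one_add hm1, mul_one] at h1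
      exact h1.symm
    obtain ⟨b, hb⟩ : ∃ b : F, b = ((f : F) - 1) / 2 := ⟨_, rfl⟩
    have hfb : (f : F) = 1 + 2 * b := by
      rw [hb]
      field_simp
      ring
    have hkey : 4 * ((a : F) - (b + b ^ 2)) = m * (f : F) ^ 2 := by
      have e : (f : F) ^ 2 = 1 + 4 * (b + b ^ 2) := by
        rw [hfb]
        ring
      linear_combination hfm + e
    have hkv : R.valuation (2 : F) ^ 2 * R.valuation ((a : F) - (b + b ^ 2)) < R.valuation (2 : F) ^ 2 := by
      have h1 := congrArg R.valuation hkey
      have e4 : (4 : F) = 2 ^ 2 := by norm_num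
      rw [map_mul, map_mul, map_pow, hf1, mul_one, e4, map_pow] at h1
      rw [h1]
      exact hm2
    have hlt : R.valuation ((a : F) - (b + b ^ 2)) < 1 := by
      by_contra h
      rw [not_lt] at h
      exact not_lt.2 (le_mul_of_one_le_right' h) hkv
    have hbR : b ∈ R := by
      rw [← R.valuation_le_one_iff]
      by_contra h
      rw [not_le] at h
      have h1 : R.valuation b < R.valuation (b ^ 2) := by
        rw [map_pow, pow_two]
        exact lt_mul_of_one_lt_left (zero_lt_one.trans h) h
      have h2 : R.valuation (b + b ^ 2) = R.valuation (b ^ 2) :=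
        Valuation.map_add_eq_of_lt_right _ h1
      have h3 : R.valuation (a : F) < R.valuation (b + b ^ 2) := by
        rw [h2]
        exact lt_of_le_of_lt ha1 (h.trans h1)
      rw [Valuation.map_sub_swap, Valuation.map_sub_eq_of_lt_left _ h3, h2] at hlt
      exact lt_irrefl _ (hlt.trans (h.trans h1))
    exact ⟨⟨b, hbR⟩, hlt⟩
  -- contradiction in the residue field
  have hfin := hR.fin
  let k := IsLocalRing.ResidueField R
  let φ : k → k := fun b => b + b ^ 2
  have hφs : Function.Surjective φ := by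
    intro x
    obtain ⟨a, rfl⟩ := IsLocalRing.residue_surjective x
    obtain ⟨b, hb⟩ := hsurj a
    refine ⟨IsLocalRing.residue R b, ?_⟩
    change IsLocalRing.residue R b + IsLocalRing.residue R b ^ 2 = _
    rw [← map_pow, ← map_add, eq_comm, ← sub_eq_zero, ← map_sub, IsLocalRing.residue_eq_zero_iff]
    exact (R.valuation_lt_one_iff _).2 hb
  have hφi : Function.Injective φ := Finite.injective_iff_surjective.2 hφs
  have h2k : (2 : k) = 0 := by
    have h1 : IsLocalRing.residue R (2 : R) = 0 := by
      rw [IsLocalRing.residue_eq_zero_iff]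
      exact (R.valuation_lt_one_iff _).2 hv2
    rw [← h1, map_ofNat]
  have h01 : φ 0 = φ 1 := by
    change (0 : k) + 0 ^ 2 = 1 + 1 ^ 2
    rw [one_pow, one_add_one_eq_two, h2k]
    norm_num
  exact zero_ne_one (hφi h01)

end Pool.Agent.ETC
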